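import Pool.Agent.H212AN.Two

set_option autoImplicit false

/-!
# Discs with at most two equal circular holes are determined by their Dirichlet spectrum

Let `D` be an open disc minus at most two disjoint closed discs of the same radius, in any position
(so `D` is a disc, a concentric or eccentric circular annulus, or a disc with two equal circular
holes), and let `Ω` be any bounded plane domain with smooth boundary, all but finitely many of whose
Dirichlet eigenvalues agree with those of `D`. Then `Ω` is congruent to `D`.

Nothing is assumed about `Ω` besides the smoothness of its boundary: neither the number of its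
boundary curves nor their shape, and no closeness to `D`. The heat expansion up to the term with the
total squared curvature, which is needed to see that `Ω` is a disc with holes of the same radii, and
the expansion of the heat trace up to exponentially small terms, which is needed to find the position
of the holes, are proved in the library (`Pool.Agent.H212AN`), from the representation of the heat
trace by random loops.
-/

open Set Metric Filter
open Pool.Agent.W594.AN (ClosedCurve dirichletEigenvalue)

namespace Pool.Agent.Results.MP_5b0138_an.AtMostTwoCircularHoles

/-- A bounded plane domain with smooth boundary: a bounded connected open set whose boundary is the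
union of finitely many disjoint embedded smooth closed curves. -/
def IsSmoothDomain (Ω : Set ℂ) : Prop :=
  IsOpen Ω ∧ IsConnected Ω ∧ Bornology.IsBounded Ω ∧ ∃ (m : ℕ) (c : Fin m → ClosedCurve),
    frontier Ω = (⋃ i, range (c i).γ) ∧
    Pairwise fun i j => Disjoint (range (c i).γ) (range (c j).γ)

/-- `ball z R \ ⋃ i, closedBall (w i) r` is the disc of radius `R` with `n` holes of radius `r`. -/
theorem result (n : ℕ) (hn : n ≤ 2) (R r : ℝ) (hr : 0 < r) (hR : 0 < R) (z : ℂ) (w : Fin n → ℂ)
    (hw : ∀ i, closedBall (w i) r ⊆ ball z R)
    (hd : Pairwise fun i j => Disjoint (closedBall (w i) r) (closedBall (w j) r))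
    (D : Set ℂ) (hD : D = ball z R \ ⋃ i, closedBall (w i) r)
    (Ω : Set ℂ) (hΩ : IsSmoothDomain Ω)
    (h : ∀ᶠ k in atTop, dirichletEigenvalue D k = dirichletEigenvalue Ω k) :
    ∃ φ : ℂ ≃ᵢ ℂ, φ '' D = Ω := by
  obtain ⟨h1, h2, h3, m, c, h4, h5⟩ := hΩ
  exact Pool.Agent.H212AN.main_two (c := c) hn hr hR ⟨z, w, hw, hd, hD⟩ ⟨h1, h2, h3, h4, h5⟩ h

end Pool.Agent.Results.MP_5b0138_an.AtMostTwoCircularHoles
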