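import Pool.Agent.Y289.HI.All3
import Pool.Agent.R225.LP.AJ

set_option autoImplicit false

/-!
# Circumscribed polygons all of whose angles but one are equal

Let `P` be a convex polygon with any number of vertices which is circumscribed about a circle and
all of whose interior angles but one are equal to `α`, the exceptional angle being at least `α`. Let
`Q` be any convex polygon, with any number of vertices, whose Dirichlet eigenvalues are those of `P`,
up to finitely many of them. Then `Q` is congruent to `P`.

Main idea: the heat trace gives the area, the perimeter and the sum over the angles. By Lhuilier's
inequality the sum of the tangents of the halves of the exterior angles of `Q` is at most that of the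
circumscribed polygon `P`, with equality just for circumscribed polygons. Among all lists (of any
length) of exterior angles with the sum `2 π` and with the sum over the angles of `P`, the exterior
angles of `P` are the only one for which the sum of the tangents is so small (an equal variable
theorem). So `Q` is circumscribed and has the angles of `P`. That finitely many eigenvalues may
be different is harmless, since almost isospectral convex polygons are isospectral (the remainders of
their heat traces are exponentially small).
-/

open Set
open Pool.Agent.W780.PG (IsConvexPolygon region)
open Pool.Agent.W703.GP (dirichletEigenvalue)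

namespace Pool.Agent.Results.MP_5b0138_an.CircumscribedPolygons

/-- There is a circle which touches all sides from within: the point `o` lies to the left of all the
sides, directed from `p i` to `p (i + 1)`, and at the same distance `r` of the lines through them
(`(b - a) × (o - a) = r * ‖b - a‖` for `a = p i`, `b = p (i + 1)`). -/
def Circumscribed {n : ℕ} (p : Fin (n + 3) → ℂ) : Prop :=
  ∃ (o : ℂ) (r : ℝ), 0 < r ∧ ∀ i,
    (star (p (i + 1) - p i) * (o - p i)).im = r * ‖p (i + 1) - p i‖

/-- `P = region p` is an arbitrary circumscribed convex polygon with the vertices `p 0, p 1, …` in
counterclockwise order, all of whose angles are equal to `α`, except perhaps the one at `p k`, which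
is at least `α`. The interior of the convex hull of the finite set `S`, if not empty, is an arbitrary
convex polygon. The Dirichlet eigenvalues number `k` of the two, with multiplicity, defined by the
min-max formula, agree for all but finitely many `k`, and `φ : ℂ ≃ᵢ ℂ` is an isometry of the
plane. -/
theorem result (n : ℕ) (p : Fin (n + 3) → ℂ) (hp : IsConvexPolygon p) (hc : Circumscribed p)
    (k : Fin (n + 3)) (α : ℝ)
    (hα : ∀ j, j ≠ k → EuclideanGeometry.angle (p (j - 1)) (p j) (p (j + 1)) = α)
    (hk : α ≤ EuclideanGeometry.angle (p (k - 1)) (p k) (p (k + 1)))
    (S : Set ℂ) (hS : S.Finite) (hne : (interior (convexHull ℝ S)).Nonempty)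
    (h : ∀ᶠ k in Filter.atTop, dirichletEigenvalue (region p) k =
      dirichletEigenvalue (interior (convexHull ℝ S)) k) :
    ∃ φ : ℂ ≃ᵢ ℂ, φ '' region p = interior (convexHull ℝ S) := by
  replace h := Pool.Agent.R225.LP.almost_region hp hS hne h
  obtain ⟨m, q, hq, e⟩ := Pool.Agent.Y459.HI.vs S hS hne
  rw [← e] at h ⊢
  exact Pool.Agent.Y289.HI.circ n m p hp hc k α hα hk q hq h

end Pool.Agent.Results.MP_5b0138_an.CircumscribedPolygons
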