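import Pool.Agent.H212AN.Many

set_option autoImplicit false

/-!
# Discs with a ring of equal circular holes in generic position are determined by their spectrum

Let `n ≥ 3` and let the radii `R` and `r` be such that `n` disjoint discs of radius `r` fit in a ring
inside the disc of radius `R`. Then there is a nonempty open set `V` of configurations of `n` disjoint
closed discs of radius `r` in the disc of radius `R` and a dense open subset `U` of `V` such that the
disc of radius `R` with holes at a configuration in `U` is determined up to congruence, among all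
bounded plane domains with smooth boundary, by all but finitely many of its Dirichlet eigenvalues.

The heat expansion shows that the other domain is a disc of radius `R` with `n` holes of radius `r`
too, and exponentially small terms of the heat trace determine the distances between neighbouring
holes and between the holes and the outer circle, which are the lengths of the shortest bouncing ball
trajectories. The proof of all this is in the library (`Pool.Agent.H212AN`).
-/

open Set Metric Filter
open Pool.Agent.W594.AN (ClosedCurve dirichletEigenvalue)
open scoped Real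

namespace Pool.Agent.Results.MP_5b0138_an.GenericRingsOfHoles

/-- A bounded plane domain with smooth boundary: a bounded connected open set whose boundary is the
union of finitely many disjoint embedded smooth closed curves. -/
def IsSmoothDomain (Ω : Set ℂ) : Prop :=
  IsOpen Ω ∧ IsConnected Ω ∧ Bornology.IsBounded Ω ∧ ∃ (m : ℕ) (c : Fin m → ClosedCurve),
    frontier Ω = (⋃ i, range (c i).γ) ∧
    Pairwise fun i j => Disjoint (range (c i).γ) (range (c j).γ)

/-- The disc of radius `R` around `0` with `n` circular holes of radius `r` and centres `w i`. -/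
def disc (n : ℕ) (R r : ℝ) (w : Fin n → ℂ) : Set ℂ := ball 0 R \ ⋃ i, closedBall (w i) r

/-- The holes are disjoint from each other and lie in the disc. -/
def Admissible (n : ℕ) (R r : ℝ) (w : Fin n → ℂ) : Prop :=
  (∀ i, closedBall (w i) r ⊆ ball 0 R) ∧
  Pairwise fun i j => Disjoint (closedBall (w i) r) (closedBall (w j) r)

/-- `D` is determined among all bounded plane domains with smooth boundary by its Dirichlet
eigenvalues, up to finitely many of them. -/
def Determined (D : Set ℂ) : Prop :=
  ∀ Ω : Set ℂ, IsSmoothDomain Ω →
    (∀ᶠ k in atTop, dirichletEigenvalue D k = dirichletEigenvalue Ω k) → ∃ φ : ℂ ≃ᵢ ℂ, φ '' D = Ω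

theorem result (n : ℕ) (hn : 3 ≤ n) (R r : ℝ) (hr : 0 < r)
    (hroom : r * (1 + Real.sin (π / n)) < R * Real.sin (π / n)) :
    ∃ V U : Set (Fin n → ℂ), IsOpen V ∧ V.Nonempty ∧ IsOpen U ∧ U ⊆ V ∧ V ⊆ closure U ∧
      (∀ w ∈ V, Admissible n R r w) ∧ ∀ w ∈ U, Determined (disc n R r w) := by
  obtain ⟨V, U, h1, h2, h3, h4, h5, h6, h7⟩ := Pool.Agent.H212AN.many_main hn hr hroom
  refine ⟨V, U, h1, h2, h3, h4, h5, fun w hw => ?_, fun w hw Ω hΩ h => ?_⟩
  · obtain ⟨a1, a2, a3⟩ := h6 w hw
    refine ⟨fun i => closedBall_subset_ball' ?_, fun i j hij => ?_⟩
    · rw [dist_zero_right]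
      linarith [a2 i]
    · exact closedBall_disjoint_closedBall (by linarith [a3 i j hij])
  · obtain ⟨k1, k2, k3, m, c, k4, k5⟩ := hΩ
    exact h7 w hw Ω m c ⟨k1, k2, k3, k4, k5⟩ h

end Pool.Agent.Results.MP_5b0138_an.GenericRingsOfHoles
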