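import Pool.Agent.U874.RS.FinalC

set_option autoImplicit false

/-!
# Discs with circular holes on a concentric circle and their spectrum

Let `n ≥ 3`, and remove from the disc `B` of radius `R` around `0` the closed discs of radius `r`
around `n` points `w 0, ..., w (n - 1)` of the concentric circle of radius `a`. The holes are at the
distance `o = R - r - a` from the outer circle. Except in (2), suppose that `o > 0` and that the
mutual distances of the holes are larger than `o`. For given `n`, `R` and `r` there is a finite set of
exceptional values of `a`; for all other `a` the following is true, where the domain is compared with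
all bounded plane domains with smooth boundary that have the same Dirichlet eigenvalues up to
finitely many.

(1) The domain is determined up to congruence if the holes are equally spaced (a whole ring or a part
of it, with any angle `δ ≤ 2 π / n` between neighbours), and also, if `n = 3`, for all positions of
the three holes on the circle.

(2) Let the points be the vertices of a regular polygon, `h = 2 a sin (π / n) - 2 r`. If `h, o > 0` and
`n = 3`, or if `o ≤ √2 h`, then again the domain is determined. For `n = 3` these are all discs with
three equal holes at the vertices of a concentric equilateral triangle.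

(3) Let `n ≥ 5`, and suppose that all gaps between neighbouring holes, but at most one, are less than
`3 / 2` of the smallest gap. Then every such domain is congruent to the disc in which the holes have the
same consecutive angles, in some order. So for an open set of positions on the circle the spectrum
determines the domain up to finitely many possibilities.

The proof. The other domain is a disc of radius `R` with `n` holes of radius `r` too, and the heat
traces agree (`Pool.Agent.H212AN`); they are expected numbers for Brownian loops. For small times
the first term which depends on the positions is `n ψ(o) - ...`, where `ψ(x)` comes from the loops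
which meet a hole at distance `x` from the outer circle, and this circle. Comparing the quotients of
the constants in the terms of a hole and of a pair of holes one sees, apart from finitely many `a`, that
all holes of the other domain are at distance `o` from the outer circle. Now all centres lie on the
circle of radius `a` in both domains, and the loops inside `B` that meet just one given hole have the
same measure in both. The next terms are the loops inside `B` that meet two holes; these are given by
the mutual distance of the holes, and determine the numbers of pairs of holes at each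
distance less than `3 / 2` of the least one. `n` points of a circle with the least distance `d`, which is
taken for at least `n - 1` pairs (`n` pairs, if `d` is the side of the regular polygon), are equally
spaced. If `n ≥ 5` then only neighbours have a distance less than `3 / 2` of the least one, and
all angles are known up to their order. For `n = 3` one gets in a similar
way the two smallest mutual distances, and these determine three points of a circle up to congruence.
If `n = 3` and `h < o`, the pairs of holes come first, the other domain has its holes at the
vertices of an equilateral triangle of the same size, and the loops that leave `B` show that the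
triangle is concentric.
-/

open Set Metric Filter
open Pool.Agent.W594.AN (ClosedCurve dirichletEigenvalue)
open scoped Real

namespace Pool.Agent.Results.MP_5b0138_an.HolesOnACircle

/-- A bounded plane domain with smooth boundary: a bounded connected open set whose boundary is the
union of finitely many disjoint embedded smooth closed curves. -/
def IsSmoothDomain (Ω : Set ℂ) : Prop :=
  IsOpen Ω ∧ IsConnected Ω ∧ Bornology.IsBounded Ω ∧ ∃ (m : ℕ) (c : Fin m → ClosedCurve),
    frontier Ω = (⋃ i, range (c i).γ) ∧
    Pairwise fun i j => Disjoint (range (c i).γ) (range (c j).γ)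

/-- The disc of radius `R` around `0` without the `n` closed discs of radius `r` around the points
`w i`. -/
def disc (n : ℕ) (R r : ℝ) (w : Fin n → ℂ) : Set ℂ :=
  ball 0 R \ ⋃ i : Fin n, closedBall (w i) r

/-- The centres `w i` lie on the circle of radius `a`, the holes are inside the disc of radius `R`, and
the distance `R - r - a` of the holes from the outer circle is less than their mutual distances. -/
def NearBoundary (n : ℕ) (R r a : ℝ) (w : Fin n → ℂ) : Prop :=
  (∀ i, ‖w i‖ = a) ∧ 0 < R - r - a ∧ ∀ i j, i ≠ j → R - r - a < dist (w i) (w j) - 2 * r

/-- The points `w i` are equally spaced on the circle of radius `a`: the angle from each point to the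
next one is `δ`, and the angle from the last point to the first one is at least `δ`. -/
def EquallySpaced (n : ℕ) (a : ℝ) (w : Fin n → ℂ) : Prop :=
  ∃ δ : ℝ, 0 < δ ∧ n * δ ≤ 2 * π ∧
    ∀ i : Fin n, w i = a * Complex.exp ((((i : ℝ) * δ : ℝ) : ℂ) * Complex.I)

/-- The vertices of the regular polygon with `n` vertices on the circle of radius `a` around `0`. -/
noncomputable def vertex (n : ℕ) (a : ℝ) (i : Fin n) : ℂ :=
  a * Complex.exp (((2 * π * (i : ℝ) / n : ℝ) : ℂ) * Complex.I)

/-- The gap between neighbouring holes around the vertices of the regular polygon. -/
noncomputable def innerGap (n : ℕ) (r a : ℝ) : ℝ := 2 * a * Real.sin (π / n) - 2 * r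

/-- The gap between these holes and the outer circle. -/
def outerGap (R r a : ℝ) : ℝ := R - r - a

/-- Positive angles with the sum `2 π`. -/
def IsAngles (n : ℕ) (θ : Fin n → ℝ) : Prop := (∀ i, 0 < θ i) ∧ ∑ i, θ i = 2 * π

/-- The `n` points on the circle of radius `a` with the consecutive angles `θ 0, ..., θ (n - 1)`; the
first one is `a`, and the `i`-th one has the argument `θ 0 + ... + θ (i - 1)`. -/
noncomputable def points (n : ℕ) (a : ℝ) (θ : Fin n → ℝ) (i : Fin n) : ℂ :=
  a * Complex.exp (((∑ j ∈ Finset.univ.filter (fun j => j < i), θ j : ℝ) : ℂ) * Complex.I)

/-- The gap between two holes of radius `r` around points of the circle of radius `a` at the angular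
distance `t`. -/
noncomputable def gap (r a t : ℝ) : ℝ := 2 * a * Real.sin (t / 2) - 2 * r

/-- All gaps between neighbours, but at most one, are less than `3 / 2` of the smallest gap. -/
def Comparable (n : ℕ) (r a : ℝ) (θ : Fin n → ℝ) : Prop :=
  ∃ i₀, ∀ i, i ≠ i₀ → ∀ j, gap r a (θ i) < 3 / 2 * gap r a (θ j)

/-- `D` is determined among all bounded plane domains with smooth boundary by its Dirichlet
eigenvalues, up to finitely many of them. -/
def Determined (D : Set ℂ) : Prop :=
  ∀ Ω : Set ℂ, IsSmoothDomain Ω →
    (∀ᶠ k in atTop, dirichletEigenvalue D k = dirichletEigenvalue Ω k) → ∃ φ : ℂ ≃ᵢ ℂ, φ '' D = Ω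

/-- Every bounded plane domain with smooth boundary with the same Dirichlet eigenvalues, up to
finitely many of them, is congruent to the disc whose holes have the same consecutive angles in some
order. -/
def DeterminedUpToOrder (n : ℕ) (R r a : ℝ) (θ : Fin n → ℝ) : Prop :=
  ∀ Ω : Set ℂ, IsSmoothDomain Ω →
    (∀ᶠ k in atTop, dirichletEigenvalue (disc n R r (points n a θ)) k = dirichletEigenvalue Ω k) →
      ∃ (σ : Equiv.Perm (Fin n)) (φ : ℂ ≃ᵢ ℂ), φ '' disc n R r (points n a fun i => θ (σ i)) = Ω

theorem result (n : ℕ) (hn : 3 ≤ n) (R r : ℝ) (hr : 0 < r) :
    (∃ F : Set ℝ, F.Finite ∧ ∀ a ∉ F,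
      (∀ w : Fin n → ℂ, NearBoundary n R r a w → n = 3 ∨ EquallySpaced n a w →
        Determined (disc n R r w)) ∧
      (0 < innerGap n r a → 0 < outerGap R r a → n = 3 ∨ outerGap R r a ≤ √2 * innerGap n r a →
        Determined (disc n R r (vertex n a))) ∧
      (5 ≤ n → ∀ θ : Fin n → ℝ, IsAngles n θ → NearBoundary n R r a (points n a θ) →
        Comparable n r a θ → DeterminedUpToOrder n R r a θ)) ∧
    (r * (1 + Real.sin (π / n)) < R * Real.sin (π / n) →
      {a : ℝ | NearBoundary n R r a (vertex n a)}.Infinite) := by
  have hv : ∀ a, vertex n a = Pool.Agent.U874.RS.chain n a (2 * π / n) := by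
    intro a
    funext i
    unfold vertex Pool.Agent.U874.RS.chain
    congr 3
    push_cast
    ring
  refine ⟨⟨Pool.Agent.U874.RS.Exc n R r, Pool.Agent.U874.RS.exc_finite hn hr, fun a ha =>
    ⟨fun w hw hc Ω hΩ hiso => ?_, fun hh ho hc Ω hΩ hiso => ?_,
      fun hn5 θ hθ hN hC Ω hΩ hiso => ?_⟩⟩, fun hroom => ?_⟩
  · obtain ⟨k1, k2, k3, k, c, k4, k5⟩ := hΩ
    exact Pool.Agent.U874.RS.part1 Pool.Agent.U874.RS.san hn hr ha w hw hc Ω k c
      ⟨k1, k2, k3, k4, k5⟩ hiso
  · obtain ⟨k1, k2, k3, k, c, k4, k5⟩ := hΩ
    rw [hv] at hiso ⊢
    exact Pool.Agent.U874.RS.part2 Pool.Agent.U874.RS.san hn hr ha hh ho hc Ω k c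
      ⟨k1, k2, k3, k4, k5⟩ hiso
  · obtain ⟨k1, k2, k3, k, c, k4, k5⟩ := hΩ
    exact Pool.Agent.U874.RS.part3 Pool.Agent.U874.RS.q_arc Pool.Agent.U874.RS.q_dst
      Pool.Agent.U874.RS.q_edg Pool.Agent.U874.RS.q_cns Pool.Agent.U874.RS.q_cnt
      Pool.Agent.U874.RS.q_mul hn5 hr ha θ hθ hN hC Ω k c ⟨k1, k2, k3, k4, k5⟩ hiso
  · have hs := Pool.Agent.U874.RS.sin_pos' hn
    have e : {a : ℝ | NearBoundary n R r a (vertex n a)} =
        Ioo ((R + r) / (1 + 2 * Real.sin (π / n))) (R - r) := by
      ext a
      rw [mem_Ioo, ← Pool.Agent.U874.RS.near_ring hn hr, ← hv]
      rfl
    rw [e]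
    apply Ioo_infinite
    rw [div_lt_iff₀ (by positivity)]
    linarith

end Pool.Agent.Results.MP_5b0138_an.HolesOnACircle
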